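import Mathlib
import Pool.Agent.H220.K.Stm
import Pool.Graph.R_pool_sql_team_seeded_2aa45f1a.Q171.Core.Basic

/-!
# Liouville theorem for smooth subharmonic functions on `ℂ` (`S_liou` of the project of helper220)
-/

set_option autoImplicit false

namespace Pool.Agent.H400.K

open Set Filter Topology Metric
open Pool.Agent.H220.K

theorem lap_shift (s : ℂ → ℝ) (a z : ℂ) :
    Pool.Agent.Q171.Core.lap (fun η => s (a + η)) z = 4 * levi s (a + z) 1 := by
  unfold Pool.Agent.Q171.Core.lap levi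
  simp only [smul_eq_mul, mul_one, ← add_assoc]
  ring

theorem liou_le (s : ℂ → ℝ) (M : ℝ) (hs : ContDiff ℝ 2 s) (hl : ∀ ζ, 0 ≤ levi s ζ 1)
    (hM : ∀ ζ, s ζ ≤ M) (ζ ζ' : ℂ) : s ζ ≤ s ζ' := by
  apply le_of_forall_pos_le_add
  intro ε hε
  by_cases hne : ζ = ζ'
  · rw [hne]
    linarith
  have hd : 0 < ‖ζ - ζ'‖ := norm_pos_iff.mpr (sub_ne_zero.mpr hne)
  have hc : ContinuousAt (fun η : ℂ => s (ζ' + η)) 0 := by
    have hcs := hs.continuous
    fun_prop
  obtain ⟨δ, hδ, hδ2⟩ := Metric.continuousAt_iff.mp hc ε hε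
  obtain ⟨ρ, hρ0, hρδ, hρd⟩ : ∃ ρ : ℝ, 0 < ρ ∧ ρ < δ ∧ ρ < ‖ζ - ζ'‖ :=
    ⟨min δ ‖ζ - ζ'‖ / 2, by positivity,
      by have := min_le_left δ ‖ζ - ζ'‖; linarith,
      by have := min_le_right δ ‖ζ - ζ'‖; linarith⟩
  have hkey : ∀ R : ℝ, ‖ζ - ζ'‖ < R →
      s ζ ≤ (s ζ' + ε) + max (M - (s ζ' + ε)) 0 / Real.log (R / ρ) *
        Real.log (‖ζ - ζ'‖ / ρ) := by
    intro R hR
    have hRρ : ρ < R := hρd.trans hR
    have hlog : 0 < Real.log (R / ρ) := Real.log_pos (by rw [lt_div_iff₀ hρ0]; linarith)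
    have h := Pool.Agent.Q171.Core.three_circles (u := fun η => s (ζ' + η)) (ρ := ρ) (R := R)
      (m := s ζ' + ε) (M := M) (K := max (M - (s ζ' + ε)) 0 / Real.log (R / ρ)) hρ0 hRρ
      (fun z _ _ => ⟨by
        have : ContDiff ℝ 2 (fun η : ℂ => s (ζ' + η)) := hs.comp (contDiff_const.add contDiff_id)
        exact this.contDiffAt, by
        rw [lap_shift]
        have := hl (ζ' + z)
        positivity⟩)
      (fun z hz => by
        have h3 := hδ2 (x := z) (by rw [dist_zero_right, hz]; exact hρδ)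
        rw [Real.dist_eq, add_zero] at h3
        have := (abs_lt.mp h3).2
        linarith)
      (fun z _ => hM _)
      (by
        rw [div_mul_cancel₀ _ hlog.ne']
        exact le_max_left _ _)
      (z := ζ - ζ') hρd.le hR.le
    simpa using h
  have hlim : Tendsto (fun R : ℝ => (s ζ' + ε) + max (M - (s ζ' + ε)) 0 / Real.log (R / ρ) *
      Real.log (‖ζ - ζ'‖ / ρ)) atTop (𝓝 ((s ζ' + ε) + 0 * Real.log (‖ζ - ζ'‖ / ρ))) := by
    apply Tendsto.const_add
    apply Tendsto.mul_const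
    apply Tendsto.div_atTop tendsto_const_nhds
    exact Real.tendsto_log_atTop.comp (tendsto_id.atTop_div_const hρ0)
  rw [zero_mul, add_zero] at hlim
  exact ge_of_tendsto hlim (by
    filter_upwards [eventually_gt_atTop ‖ζ - ζ'‖] with R hR using hkey R hR)

theorem s_liou : S_liou := by
  intro s M hs hl hM ζ ζ'
  exact le_antisymm (liou_le s M hs hl hM ζ ζ') (liou_le s M hs hl hM ζ' ζ)

end Pool.Agent.H400.K
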